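import Pool.Agent.Y890.MV.TorExc

/-!
# Values of algebraically independent analytic functions at almost all points over all number fields
-/

set_option autoImplicit false
set_option linter.unusedSectionVars false

open NumberField Filter

namespace Pool.Agent.Q311.MV

open Pool.Agent.Y890.MV
open Pool.Agent.Y124 (Cov)

/-- the functions `f` are algebraically independent over the field of rational functions of `x` -/
def IndepM {X σ : Type} (U : Set (X → ℂ)) (f : σ → (X → ℂ) → ℂ) : Prop :=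
  ∀ p : MvPolynomial σ (MvPolynomial X ℂ), (∀ x ∈ U, evM f x p = 0) → p = 0

/-- independent functions have the whole space as torsor -/
theorem torM_univ {X σ : Type} [Fintype X] {U : Set (X → ℂ)} {f : σ → (X → ℂ) → ℂ} (h : IndepM U f) :
    TorM U f (fun _ => Set.univ) := by
  refine ⟨fun _ _ => Set.mem_univ _, ?_, ?_, ?_⟩
  · intro p hp x _ Y _
    rw [h p hp]
    exact map_zero (MvPolynomial.eval₂Hom (MvPolynomial.eval x) Y)
  · intro x _ Y _
    refine ⟨fun s => Polynomial.C (f s x) + Polynomial.X * Polynomial.C (Y s - f s x), ?_, ?_, fun _ => Set.mem_univ _⟩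
    · intro s
      simp
    · intro s
      simp
  · refine ⟨1, one_ne_zero, fun x0 _ _ Y0 _ => ⟨fun s => MvPolynomial.C (Y0 s), fun _ _ _ => Set.mem_univ _, ?_⟩⟩
    intro s
    simp

/-- the value at `y` of the polynomial with the coefficients `∑ a, c l a * ξ a` -/
noncomputable def value {σ : Type} [Fintype σ] [DecidableEq σ] {k : ℕ} (c : (σ → Fin (k + 1)) → Fin k → ℂ)
    (ξ : Fin k → ℂ) (y : σ → ℂ) : ℂ :=
  ∑ l : σ → Fin (k + 1), (∑ a, c l a * ξ a) * ∏ i, y i ^ (l i : ℕ)

/-- the relations between the numbers `y` of degree at most `k` in each of them with coefficients `∑ a, c l a * ξ a`,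
`c l a` integers of `K` all conjugates of which are at most `T ^ k`, are trivial -/
def Free {σ : Type} [Fintype σ] [DecidableEq σ] (k : ℕ) (K : Type) [Field K] [NumberField K] (io : K →+* ℂ)
    (ξ : Fin k → ℂ) (T : ℝ) (y : σ → ℂ) : Prop :=
  ∀ c : (σ → Fin (k + 1)) → Fin k → 𝓞 K, (∀ l a (φ : K →+* ℂ), ‖φ (c l a : K)‖ ≤ T ^ k) →
    value (fun l a => io (c l a : K)) ξ y = 0 → ∀ l, ∑ a, io (c l a : K) * ξ a = 0

/-- a polynomial of degree at most `k` in each variable which vanishes everywhere is zero -/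
theorem coeff_zero {σ : Type} [Fintype σ] [DecidableEq σ] {k : ℕ} (w : (σ → Fin (k + 1)) → ℂ)
    (h : ∀ Y : σ → ℂ, ∑ l : σ → Fin (k + 1), w l * ∏ i, Y i ^ (l i : ℕ) = 0) : ∀ l, w l = 0 := by
  classical
  set p : MvPolynomial σ ℂ := ∑ l : σ → Fin (k + 1), MvPolynomial.monomial
    (Finsupp.equivFunOnFinite.symm fun i => (l i : ℕ)) (w l) with hp
  have hev : ∀ Y : σ → ℂ, MvPolynomial.eval Y p = ∑ l : σ → Fin (k + 1), w l * ∏ i, Y i ^ (l i : ℕ) := by
    intro Y
    rw [hp, map_sum]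
    refine Finset.sum_congr rfl fun l _ => ?_
    rw [MvPolynomial.eval_monomial, Finsupp.prod_fintype _ _ (fun i => pow_zero _)]
    rfl
  have hp0 : p = 0 := by
    refine MvPolynomial.funext fun Y => ?_
    rw [hev, h, map_zero]
  intro l
  have h1 : p.coeff (Finsupp.equivFunOnFinite.symm fun i => (l i : ℕ)) = w l := by
    rw [hp, MvPolynomial.coeff_sum, Finset.sum_eq_single l]
    · simp
    · intro b _ hb
      rw [MvPolynomial.coeff_monomial, if_neg]
      intro h2
      apply hb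
      have h3 := Finsupp.equivFunOnFinite.symm.injective h2
      funext i
      exact Fin.ext (congrFun h3 i)
    · intro h2
      exact absurd (Finset.mem_univ l) h2
  rw [← h1, hp0, MvPolynomial.coeff_zero]

variable {X : Type} [Fintype X] [DecidableEq X] [Nonempty X] {σ : Type} [Fintype σ] [DecidableEq σ]

/-- the exceptional points, for one system of constants -/
theorem free_of_notMem {k : ℕ} (f : σ → (X → ℂ) → ℂ) (Lc : Set (X → ℂ)) (K : Type) [Field K]
    [NumberField K] (io : K →+* ℂ) (ξ : Fin k → ℂ) (T : ℝ) {s : X → K} (h1 : ∀ j, Y120.HtLe K T (s j))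
    (h2 : (fun j => io (s j)) ∈ Lc) (h : s ∉ ExcT k f (fun _ => Set.univ) Lc K io ξ (k : ℝ) T) :
    Free k K io ξ T (fun i => f i (fun j => io (s j))) := by
  intro c hc hv
  by_contra hne
  apply h
  refine ⟨h1, h2, c, ?_, ?_, ?_⟩
  · intro l a φ
    rw [Real.rpow_natCast]
    exact hc l a φ
  · rw [← hv]
    refine Finset.sum_congr rfl fun l _ => ?_
    congr 1
    exact Finset.sum_congr rfl fun a _ => mul_comm _ _
  · intro hall
    apply hne
    intro l
    have h3 := coeff_zero _ (fun Y => hall Y (Set.mem_univ _)) l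
    rw [← h3]
    exact Finset.sum_congr rfl fun a _ => mul_comm _ _

/-- **The theorem for independent functions**, for several systems of constants at once (`g k p i`, `i < m`). -/
theorem main {U : Set (X → ℂ)} {f : σ → (X → ℂ) → ℂ} (hU : IsPreconnected U) (hUo : IsOpen U) (hne : U.Nonempty)
    (hf : ∀ i, AnalyticOnNhd ℂ (f i) U) (hind : IndepM U f) (ξ₀ : ∀ k : ℕ, Fin k → ℂ) :
    ∃ (ω : ℝ → ℕ) (T₀ : ℝ), Tendsto ω atTop atTop ∧ Monotone ω ∧ ∀ T, T₀ ≤ T → 0 < ω T ∧
      ∀ (K : Type) [Field K] [NumberField K], Module.finrank ℚ K ≤ ω T → ∀ (io : K →+* ℂ) (ξ : Fin (ω T) → ℂ),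
        Cov ⌊T ^ ((ω T : ℝ)⁻¹)⌋₊ ⌊T ^ ((ω T : ℝ)⁻¹)⌋₊
          ((fun (s : X → K) j => io (s j)) '' {s | (∀ j, Y120.HtLe K T (s j)) ∧ (fun j => io (s j)) ∈ InnerM U (ω T) ∧
            ¬ (Free (ω T) K io ξ T (fun i => f i (fun j => io (s j))) ∧
              Free (ω T) K io (ξ₀ (ω T)) T (fun i => f i (fun j => io (s j))))}) ∧
        {s : X → K | (∀ j, Y120.HtLe K T (s j)) ∧ (fun j => io (s j)) ∈ InnerM U (ω T) ∧
            ¬ (Free (ω T) K io ξ T (fun i => f i (fun j => io (s j))) ∧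
              Free (ω T) K io (ξ₀ (ω T)) T (fun i => f i (fun j => io (s j))))}.Finite ∧
        ({s : X → K | (∀ j, Y120.HtLe K T (s j)) ∧ (fun j => io (s j)) ∈ InnerM U (ω T) ∧
            ¬ (Free (ω T) K io ξ T (fun i => f i (fun j => io (s j))) ∧
              Free (ω T) K io (ξ₀ (ω T)) T (fun i => f i (fun j => io (s j))))}.ncard : ℝ) ≤
          T ^ ((ω T : ℝ)⁻¹) * ({x : K | Y120.HtLe K T x}.ncard : ℝ) ^ (Fintype.card X - 1) := by
  classical
  refine omega_gen (fun k => Fin k → ℂ) (fun k K _ _ io ξ T => {s : X → K | (∀ j, Y120.HtLe K T (s j)) ∧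
    (fun j => io (s j)) ∈ InnerM U k ∧ ¬ (Free k K io ξ T (fun i => f i (fun j => io (s j))) ∧
      Free k K io (ξ₀ k) T (fun i => f i (fun j => io (s j))))})
    (fun k K _ _ io ξ T s hs => hs.1) ?_
  intro k ε hε
  rcases Nat.eq_zero_or_pos k with hk | hk
  · refine ⟨0, 0, 2, le_rfl, le_rfl, ?_⟩
    intro K _ _ hK
    have h1 : 0 < Module.finrank ℚ K := Module.finrank_pos
    omega
  obtain ⟨D, C, T₀, hC, hT₀, H⟩ := excT_cov hU hUo hne hf (torM_univ hind) (InnerM U k) (innerM_compact _ _)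
    (innerM_sub _ hk) k (Fin k) k (k : ℝ) ε hε
  refine ⟨D, 2 * C, T₀, by positivity, hT₀, fun K _ _ hK io ξ T hT0 => ?_⟩
  have h1 := (H K hK io ξ T hT0).union (H K hK io (ξ₀ k) T hT0)
  rw [← Set.image_union] at h1
  refine h1.mono le_rfl ?_ (Set.image_mono ?_)
  · have h2 : (0 : ℝ) ≤ C * T ^ ε := by
      have : (0 : ℝ) < T := by linarith
      positivity
    apply Nat.le_floor
    push_cast
    have h3 := Nat.floor_le h2
    linarith
  · rintro s ⟨hs1, hs2, hs3⟩
    by_contra hcon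
    rw [Set.mem_union, not_or] at hcon
    exact hs3 ⟨free_of_notMem f _ K io ξ T hs1 hs2 hcon.1, free_of_notMem f _ K io (ξ₀ k) T hs1 hs2 hcon.2⟩

end Pool.Agent.Q311.MV
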