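import Pool.Agent.Y119.PLM.Gal
import Pool.Agent.Q311.MV.Ind

/-!
# Relations at almost all points over all number fields are specialisations of functional relations
-/

set_option autoImplicit false
set_option linter.unusedSectionVars false

open NumberField Filter

namespace Pool.Agent.Q311.MV

open Pool.Agent.Y890.MV
open Pool.Agent.Y890.SP (Qbar)
open Pool.Agent.Y124 (Cov)
open Pool.Agent.Y119.PLM (MT Ix IsMon vt GalT mon_mem IsRelT pe)

/-- the coefficients of `P` are of the form `∑ a, ξ a * c a` with integers `c a` of `K` all conjugates of which are at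
most `T ^ k` -/
def CoefIn {σ : Type} (k : ℕ) (K : Type) [Field K] [NumberField K] (io : K →+* ℂ) (ξ : Fin k → ℂ) (T : ℝ)
    (P : MvPolynomial σ ℂ) : Prop :=
  ∀ m, ∃ c : Fin k → 𝓞 K, (∀ a (φ : K →+* ℂ), ‖φ (c a : K)‖ ≤ T ^ k) ∧ P.coeff m = ∑ a, ξ a * io (c a : K)

/-- every relation of degree at most `k` in each variable between the values of the functions `f` at `x₀` is the
specialisation of a relation between the functions with coefficients which are combinations of the `ξ a` with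
coefficients in `ℚ̄[x]` -/
def SpecAt {X σ : Type} [Fintype X] (U : Set (X → ℂ)) (f : σ → (X → ℂ) → ℂ) (k : ℕ) (K : Type) [Field K]
    [NumberField K] (io : K →+* ℂ) (ξ : Fin k → ℂ) (T : ℝ) (x₀ : X → ℂ) : Prop :=
  ∀ P : MvPolynomial σ ℂ, (∀ y, P.degreeOf y ≤ k) → CoefIn k K io ξ T P →
    MvPolynomial.eval (fun y => f y x₀) P = 0 →
    ∃ F : MvPolynomial σ (MvPolynomial X ℂ), (∀ x ∈ U, evM f x F = 0) ∧
      MvPolynomial.map (MvPolynomial.eval x₀) F = P ∧ (∀ y, F.degreeOf y ≤ k) ∧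
      ∀ m, ∃ G : Fin k → MvPolynomial X Qbar,
        F.coeff m = ∑ a, MvPolynomial.C (ξ a) * MvPolynomial.map (algebraMap Qbar ℂ) (G a)

/-- the sum over the exponents -/
lemma sum_exp {σ : Type} [Fintype σ] [DecidableEq σ] {R : Type} [CommRing R] {k : ℕ} {P : MvPolynomial σ R}
    (hdeg : ∀ y, P.degreeOf y ≤ k) :
    ∑ l : σ → Fin (k + 1), MvPolynomial.monomial (Finsupp.equivFunOnFinite.symm fun y => (l y : ℕ))
      (P.coeff (Finsupp.equivFunOnFinite.symm fun y => (l y : ℕ))) = P := by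
  classical
  refine MvPolynomial.ext _ _ fun m => ?_
  rw [MvPolynomial.coeff_sum]
  simp only [MvPolynomial.coeff_monomial]
  by_cases hm : m ∈ P.support
  · have hle : ∀ y, m y ≤ k := fun y => (MvPolynomial.monomial_le_degreeOf y hm).trans (hdeg y)
    have h1 : (Finsupp.equivFunOnFinite.symm fun y => (((fun y => ⟨m y, Nat.lt_succ_of_le (hle y)⟩ :
        σ → Fin (k + 1)) y : Fin (k + 1)) : ℕ)) = m := by
      ext y
      rfl
    rw [Finset.sum_eq_single (fun y => ⟨m y, Nat.lt_succ_of_le (hle y)⟩ : σ → Fin (k + 1))]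
    · rw [if_pos h1, h1]
    · intro l _ hl
      rw [if_neg]
      intro h2
      apply hl
      funext y
      apply Fin.ext
      have h3 := DFunLike.congr_fun h2 y
      exact h3
    · intro h2
      exact absurd (Finset.mem_univ _) h2
  · rw [MvPolynomial.notMem_support_iff.1 hm]
    refine Finset.sum_eq_zero fun l _ => ?_
    split_ifs with h
    · rw [h, MvPolynomial.notMem_support_iff.1 hm]
    · rfl

variable {X : Type} [Fintype X] {σ : Type} [Fintype σ] [DecidableEq σ]

/-- outside the exceptional set of the system, relations specialise -/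
theorem spec_of_notMem {k : ℕ} {U : Set (X → ℂ)} (f : σ → (X → ℂ) → ℂ) (Lc : Set (X → ℂ)) (K : Type)
    [Field K] [NumberField K] (io : K →+* ℂ) (ξ : Fin k → ℂ) (T : ℝ) {s : X → K} (h1 : ∀ j, Y120.HtLe K T (s j))
    (h2 : (fun j => io (s j)) ∈ Lc)
    (h : s ∉ ExcM (h := (σ → Fin (k + 1)) × Fin k) (r := Unit) U f Lc K io
      (fun _ l p => if p.1 = l then ξ p.2 else 0) (k : ℝ) T) :
    SpecAt U f k K io ξ T (fun j => io (s j)) := by
  classical
  intro P hdeg hcoef hzero
  choose c hc hc' using hcoef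
  have hsum : ∀ (w : (σ → Fin (k + 1)) × Fin k → ℂ) (l : σ → Fin (k + 1)),
      ∑ p : (σ → Fin (k + 1)) × Fin k, (if p.1 = l then ξ p.2 else 0) * w p = ∑ i, ξ i * w (l, i) := by
    intro w l
    rw [Fintype.sum_prod_type, Finset.sum_eq_single l]
    · simp
    · intro b _ hb
      simp [hb]
    · simp
  set e : (σ → Fin (k + 1)) → (σ →₀ ℕ) := fun l => Finsupp.equivFunOnFinite.symm fun y => (l y : ℕ) with he
  have hG : ∃ G : (σ → Fin (k + 1)) × Fin k → MvPolynomial X Qbar,
      (∀ p, MvPolynomial.aeval (fun j => io (s j)) (G p) = io (c (e p.1) p.2 : K)) ∧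
      ∀ x ∈ U, SysM f (fun (_ : Unit) l (p : (σ → Fin (k + 1)) × Fin k) => if p.1 = l then ξ p.2 else 0) x
        (fun p => MvPolynomial.aeval x (G p)) := by
    by_contra hcon
    apply h
    refine ⟨h1, h2, fun p => c (e p.1) p.2, fun p φ => ?_, ?_, hcon⟩
    · rw [Real.rpow_natCast]
      exact hc _ _ φ
    · intro _
      simp only [hsum]
      have h3 : MvPolynomial.eval (fun y => f y (fun j => io (s j))) (∑ l : σ → Fin (k + 1),
          MvPolynomial.monomial (e l) (P.coeff (e l))) = 0 := by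
        rw [sum_exp hdeg]
        exact hzero
      rw [map_sum] at h3
      rw [← h3]
      refine Finset.sum_congr rfl fun l _ => ?_
      rw [MvPolynomial.eval_monomial, Finsupp.prod_fintype _ _ (fun i => pow_zero _), hc' (e l)]
      rfl
  obtain ⟨G, hG1, hG2⟩ := hG
  set F : MvPolynomial σ (MvPolynomial X ℂ) := ∑ l : σ → Fin (k + 1), MvPolynomial.monomial (e l)
    (∑ a, MvPolynomial.C (ξ a) * MvPolynomial.map (algebraMap Qbar ℂ) (G (l, a))) with hF
  have hinj : Function.Injective e := by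
    intro l l' hll
    funext y
    exact Fin.ext (DFunLike.congr_fun hll y)
  refine ⟨F, ?_, ?_, ?_, ?_⟩
  · intro x hx
    have h4 := hG2 x hx ()
    simp only [hsum] at h4
    rw [← h4, hF]
    unfold evM
    rw [MvPolynomial.eval₂_sum]
    refine Finset.sum_congr rfl fun l _ => ?_
    rw [MvPolynomial.eval₂_monomial, Finsupp.prod_fintype _ _ (fun i => pow_zero _), map_sum]
    congr 1
    refine Finset.sum_congr rfl fun a _ => ?_
    rw [map_mul, MvPolynomial.eval_C, MvPolynomial.eval_map]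
    rfl
  · rw [hF, map_sum]
    conv_rhs => rw [← sum_exp hdeg]
    refine Finset.sum_congr rfl fun l _ => ?_
    rw [MvPolynomial.map_monomial, map_sum]
    congr 1
    rw [hc' (e l)]
    refine Finset.sum_congr rfl fun a _ => ?_
    rw [map_mul, MvPolynomial.eval_C, MvPolynomial.eval_map, ← MvPolynomial.aeval_def, hG1 (l, a)]
  · intro y
    rw [hF]
    refine (MvPolynomial.degreeOf_sum_le _ _ _).trans ?_
    refine Finset.sup_le fun l _ => ?_
    by_cases h5 : (∑ a, MvPolynomial.C (ξ a) * MvPolynomial.map (algebraMap Qbar ℂ) (G (l, a))) = 0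
    · rw [h5, MvPolynomial.monomial_zero, MvPolynomial.degreeOf_zero]
      exact Nat.zero_le _
    · rw [MvPolynomial.degreeOf_monomial_eq _ _ h5]
      exact Nat.lt_succ_iff.1 (l y).2
  · intro m
    by_cases h6 : ∃ l, e l = m
    · obtain ⟨l, rfl⟩ := h6
      refine ⟨fun a => G (l, a), ?_⟩
      rw [hF, MvPolynomial.coeff_sum, Finset.sum_eq_single l]
      · rw [MvPolynomial.coeff_monomial, if_pos rfl]
      · intro l' _ hl
        rw [MvPolynomial.coeff_monomial, if_neg (fun h7 => hl (hinj h7))]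
      · intro h7
        exact absurd (Finset.mem_univ _) h7
    · push Not at h6
      refine ⟨0, ?_⟩
      rw [hF, MvPolynomial.coeff_sum, Finset.sum_eq_zero]
      · simp
      · intro l _
        rw [MvPolynomial.coeff_monomial, if_neg (h6 l)]

variable [DecidableEq X] [Nonempty X]

/-- **Specialisation, all parameters at once.** -/
theorem spec_main {U : Set (X → ℂ)} {f : σ → (X → ℂ) → ℂ} (hU : IsPreconnected U) (hUo : IsOpen U) (hne : U.Nonempty)
    (hf : ∀ i, AnalyticOnNhd ℂ (f i) U) (hreg : RegularM U f) :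
    ∃ (ω : ℝ → ℕ) (T₀ : ℝ), Tendsto ω atTop atTop ∧ Monotone ω ∧ ∀ T, T₀ ≤ T → 0 < ω T ∧
      ∀ (K : Type) [Field K] [NumberField K], Module.finrank ℚ K ≤ ω T → ∀ (io : K →+* ℂ) (ξ : Fin (ω T) → ℂ),
        Cov ⌊T ^ ((ω T : ℝ)⁻¹)⌋₊ ⌊T ^ ((ω T : ℝ)⁻¹)⌋₊
          ((fun (s : X → K) j => io (s j)) '' {s | (∀ j, Y120.HtLe K T (s j)) ∧ (fun j => io (s j)) ∈ InnerM U (ω T) ∧
            ¬ SpecAt U f (ω T) K io ξ T (fun j => io (s j))}) ∧
        {s : X → K | (∀ j, Y120.HtLe K T (s j)) ∧ (fun j => io (s j)) ∈ InnerM U (ω T) ∧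
            ¬ SpecAt U f (ω T) K io ξ T (fun j => io (s j))}.Finite ∧
        ({s : X → K | (∀ j, Y120.HtLe K T (s j)) ∧ (fun j => io (s j)) ∈ InnerM U (ω T) ∧
            ¬ SpecAt U f (ω T) K io ξ T (fun j => io (s j))}.ncard : ℝ) ≤
          T ^ ((ω T : ℝ)⁻¹) * ({x : K | Y120.HtLe K T x}.ncard : ℝ) ^ (Fintype.card X - 1) := by
  classical
  refine omega_gen (fun k => Fin k → ℂ) (fun k K _ _ io ξ T => {s : X → K | (∀ j, Y120.HtLe K T (s j)) ∧
    (fun j => io (s j)) ∈ InnerM U k ∧ ¬ SpecAt U f k K io ξ T (fun j => io (s j))})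
    (fun k K _ _ io ξ T s hs => hs.1) ?_
  intro k ε hε
  rcases Nat.eq_zero_or_pos k with hk | hk
  · refine ⟨0, 0, 2, le_rfl, le_rfl, ?_⟩
    intro K _ _ hK
    have h1 : 0 < Module.finrank ℚ K := Module.finrank_pos
    omega
  obtain ⟨D, C, T₀, hC, hT₀, H⟩ := excM_cov stmZ stmClose stmCharts hU hUo hne hf hreg (InnerM U k)
    (innerM_compact _ _) (innerM_sub _ hk) k ((σ → Fin (k + 1)) × Fin k) Unit k (k : ℝ) ε hε
  refine ⟨D, C, T₀, hC, hT₀, fun K _ _ hK io ξ T hT0 => ?_⟩
  refine (H K hK io (fun _ l p => if p.1 = l then ξ p.2 else 0) T hT0).mono le_rfl le_rfl (Set.image_mono ?_)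
  rintro s ⟨hs1, hs2, hs3⟩
  by_contra hcon
  exact hs3 (spec_of_notMem f _ K io ξ T hs1 hs2 hcon)

end Pool.Agent.Q311.MV
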