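import Pool.Agent.Y119.PLM.Gal
import Pool.Agent.Q311.MV.Ind

/-!
# The transcendence degree of a family is at least the dimension of the Zariski closure of its monodromy
-/

set_option autoImplicit false
set_option linter.unusedSectionVars false

open Matrix

namespace Pool.Agent.Q311.MV

open Pool.Agent.Y890.MV
open Pool.Agent.Y119.PLM (MT Ix IsMon vt GalT mon_mem IsRelT)

section Alg

variable {ι ι' k : Type} [Field k]

/-- as many of the generators of a domain are independent as there are independent elements -/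
theorem indep_gen {A : Type} [CommRing A] [IsDomain A] [Algebra k A] (h : ι' → A)
    (hA : Algebra.adjoin k (Set.range h) = ⊤) {r : ℕ} (y : Fin r → A) (hy : AlgebraicIndependent k y) :
    ∃ σ : Fin r → ι', AlgebraicIndependent k (fun i => h (σ i)) := by
  classical
  have : Algebra.IsAlgebraic (Algebra.adjoin k (Set.range h)) A := by
    refine ⟨fun a => ?_⟩
    have ha : a ∈ Algebra.adjoin k (Set.range h) := by rw [hA]; exact Algebra.mem_top
    exact isAlgebraic_algebraMap (⟨a, ha⟩ : Algebra.adjoin k (Set.range h))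
  have hfs : FaithfulSMul k A := (faithfulSMul_iff_algebraMap_injective k A).2 (algebraMap k A).injective
  obtain ⟨t, hts, ht⟩ := exists_isTranscendenceBasis_subset (R := k) (A := A) (Set.range h)
  have hcard : (Cardinal.mk (Fin r)) ≤ Cardinal.mk t := by
    rw [ht.cardinalMk_eq_trdeg]
    exact hy.cardinalMk_le_trdeg
  obtain ⟨e⟩ := (Cardinal.le_def _ _).1 hcard
  have h2 : ∀ i : Fin r, ∃ j : ι', h j = (e i : A) := fun i => hts (e i).2
  choose σ hσ using h2
  refine ⟨σ, ?_⟩
  have h4 : (fun i => h (σ i)) = (fun x : t => (x : A)) ∘ e := funext fun i => hσ i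
  rw [h4]
  exact ht.1.comp e e.injective

/-- `r` coordinates without polynomial relation on a set, and new generators of the ring of coordinates -/
theorem transfer (S : Set (ι → k)) {r : ℕ} (τ : Fin r → ι)
    (hτ : ∀ p : MvPolynomial (Fin r) k, (∀ g ∈ S, MvPolynomial.eval (fun i => g (τ i)) p = 0) → p = 0)
    (L : ι' → MvPolynomial ι k) (hL : ∀ i, MvPolynomial.X i ∈ Algebra.adjoin k (Set.range L)) :
    ∃ σ : Fin r → ι', ∀ q : MvPolynomial (Fin r) k,
      (∀ g ∈ S, MvPolynomial.eval (fun i => MvPolynomial.eval g (L (σ i))) q = 0) → q = 0 := by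
  classical
  let I : Ideal (MvPolynomial ι k) :=
    { carrier := {p | ∀ g ∈ S, MvPolynomial.eval g p = 0}
      add_mem' := fun {p q} hp hq g hg => by rw [map_add, hp g hg, hq g hg, add_zero]
      zero_mem' := fun g _ => map_zero _
      smul_mem' := fun c p hp g hg => by rw [smul_eq_mul, map_mul, hp g hg, mul_zero] }
  let M : Submonoid (MvPolynomial ι k) :=
    (nonZeroDivisors (MvPolynomial (Fin r) k)).map (MvPolynomial.rename τ : MvPolynomial (Fin r) k →ₐ[k] MvPolynomial ι k)
  have hdis : Disjoint (I : Set (MvPolynomial ι k)) M := by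
    rw [Set.disjoint_left]
    rintro _ hI ⟨p, hp, rfl⟩
    apply nonZeroDivisors.ne_zero hp
    refine hτ p fun g hg => ?_
    have h1 := hI g hg
    rw [MvPolynomial.eval_rename] at h1
    exact h1
  obtain ⟨P, hP, hIP, hPM⟩ := Ideal.exists_le_prime_disjoint I M hdis
  let A := MvPolynomial ι k ⧸ P
  let π : MvPolynomial ι k →ₐ[k] A := Ideal.Quotient.mkₐ k P
  have hπ : Function.Surjective π := Ideal.Quotient.mkₐ_surjective k P
  have hker : ∀ p, π p = 0 ↔ p ∈ P := fun p => Ideal.Quotient.eq_zero_iff_mem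
  let h : ι' → A := fun i => π (L i)
  have hR : Algebra.adjoin k (Set.range L) = ⊤ := by
    rw [eq_top_iff, ← MvPolynomial.adjoin_range_X]
    apply Algebra.adjoin_le
    rintro _ ⟨i, rfl⟩
    exact hL i
  have hA : Algebra.adjoin k (Set.range h) = ⊤ := by
    have h1 : Set.range h = π '' Set.range L := by
      rw [← Set.range_comp]
      rfl
    rw [h1, ← AlgHom.map_adjoin, hR, Algebra.map_top]
    exact (AlgHom.range_eq_top π).2 hπ
  have hτA : AlgebraicIndependent k (fun i => π (MvPolynomial.X (τ i))) := by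
    rw [algebraicIndependent_iff]
    intro p hp
    by_contra hp0
    have h1 : MvPolynomial.aeval (fun i => π (MvPolynomial.X (τ i))) p = π (MvPolynomial.rename τ p) := by
      rw [MvPolynomial.rename_eq_aeval, MvPolynomial.comp_aeval_apply]
      rfl
    rw [h1, hker] at hp
    exact Set.disjoint_left.1 hPM hp ⟨p, mem_nonZeroDivisors_of_ne_zero hp0, rfl⟩
  have hdom : IsDomain A := Ideal.Quotient.isDomain P
  obtain ⟨σ, h3⟩ := indep_gen h hA _ hτA
  refine ⟨σ, fun q hq => ?_⟩
  rw [algebraicIndependent_iff] at h3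
  apply h3
  have h5 : MvPolynomial.aeval (fun i => h (σ i)) q = π (MvPolynomial.aeval (fun i => L (σ i)) q) := by
    rw [MvPolynomial.comp_aeval_apply]
  rw [h5, hker]
  apply hIP
  intro g hg
  have h6 := hq g hg
  have h7 : MvPolynomial.eval g (MvPolynomial.aeval (fun i => L (σ i)) q) =
      MvPolynomial.eval (fun i => MvPolynomial.eval g (L (σ i))) q := by
    rw [MvPolynomial.aeval_def, MvPolynomial.hom_eval₂, MvPolynomial.eval, MvPolynomial.coe_eval₂Hom]
    congr 1
    ext c
    simp [MvPolynomial.algebraMap_eq]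
  rw [h7]
  exact h6

end Alg

/-- `r` of the entries of the tuples of matrices of the set `S` satisfy no polynomial relation: the dimension of the
Zariski closure of `S` is at least `r` -/
def DimGe {κ : Type} {n : κ → ℕ} (S : Set (MT n)) (r : ℕ) : Prop :=
  ∃ τ : Fin r → Ix n, ∀ p : MvPolynomial (Fin r) ℂ,
    (∀ g ∈ S, MvPolynomial.eval (fun i => g (τ i).1 (τ i).2.1 (τ i).2.2) p = 0) → p = 0

/-- coordinates on the translate of a set by invertible matrices -/
theorem exists_coord_mul {κ : Type} {n : κ → ℕ} {S : Set (MT n)} {r : ℕ} (hr : DimGe S r) (y : MT n)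
    (hy : ∀ j, (y j).det ≠ 0) :
    ∃ σ : Fin r → Ix n, ∀ q : MvPolynomial (Fin r) ℂ,
      (∀ g ∈ S, MvPolynomial.eval (fun i => (y * g) (σ i).1 (σ i).2.1 (σ i).2.2) q = 0) → q = 0 := by
  classical
  obtain ⟨τ, hτ⟩ := hr
  let L : Ix n → MvPolynomial (Ix n) ℂ := fun i =>
    ∑ l, MvPolynomial.C (y i.1 i.2.1 l) * MvPolynomial.X ⟨i.1, l, i.2.2⟩
  have hLe : ∀ (g : MT n) (i : Ix n), MvPolynomial.eval (fun i : Ix n => g i.1 i.2.1 i.2.2) (L i) =
      (y * g) i.1 i.2.1 i.2.2 := by
    intro g i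
    simp [L, Matrix.mul_apply]
  have hLX : ∀ i, MvPolynomial.X i ∈ Algebra.adjoin ℂ (Set.range L) := by
    rintro ⟨j, a, b⟩
    have h4 : (MvPolynomial.X ⟨j, a, b⟩ : MvPolynomial (Ix n) ℂ) = ∑ c, ((y j)⁻¹ a c) • L ⟨j, c, b⟩ := by
      have h5 : ∀ l, ∑ c, (y j)⁻¹ a c * y j c l = (1 : Matrix (Fin (n j)) (Fin (n j)) ℂ) a l := by
        intro l
        rw [← Matrix.mul_apply, Matrix.nonsing_inv_mul _ (Ne.isUnit (hy j))]
      calc (MvPolynomial.X ⟨j, a, b⟩ : MvPolynomial (Ix n) ℂ) =
            ∑ l : Fin (n j), MvPolynomial.C ((1 : Matrix (Fin (n j)) (Fin (n j)) ℂ) a l) *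
              MvPolynomial.X (⟨j, (l, b)⟩ : Ix n) := by
            rw [Finset.sum_eq_single a]
            · simp
            · intro l _ hl
              rw [Matrix.one_apply_ne (Ne.symm hl), map_zero, zero_mul]
            · intro h6
              exact absurd (Finset.mem_univ a) h6
        _ = ∑ l : Fin (n j), ∑ c : Fin (n j), MvPolynomial.C ((y j)⁻¹ a c * y j c l) *
              MvPolynomial.X (⟨j, (l, b)⟩ : Ix n) := by
            refine Finset.sum_congr rfl fun l _ => ?_
            rw [← Finset.sum_mul, ← map_sum, h5]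
        _ = ∑ c : Fin (n j), ∑ l : Fin (n j), MvPolynomial.C ((y j)⁻¹ a c * y j c l) *
              MvPolynomial.X (⟨j, (l, b)⟩ : Ix n) := Finset.sum_comm
        _ = ∑ c, ((y j)⁻¹ a c) • L ⟨j, c, b⟩ := by
            refine Finset.sum_congr rfl fun c _ => ?_
            show _ = ((y j)⁻¹ a c) • ∑ l : Fin (n j), MvPolynomial.C (y j c l) *
              MvPolynomial.X (⟨j, (l, b)⟩ : Ix n)
            rw [Finset.smul_sum]
            refine Finset.sum_congr rfl fun l _ => ?_
            rw [MvPolynomial.smul_eq_C_mul, ← mul_assoc, ← map_mul]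
    rw [h4]
    exact Subalgebra.sum_mem _ fun c _ => Subalgebra.smul_mem _ (Algebra.subset_adjoin (Set.mem_range_self _)) _
  have hS : ∀ q : MvPolynomial (Fin r) ℂ,
      (∀ g' ∈ (fun (g : MT n) (i : Ix n) => g i.1 i.2.1 i.2.2) '' S,
        MvPolynomial.eval (fun i => g' (τ i)) q = 0) → q = 0 := by
    intro q hq
    refine hτ q fun g hg => ?_
    exact hq (fun i : Ix n => g i.1 i.2.1 i.2.2) (Set.mem_image_of_mem _ hg)
  have htr := transfer (ι := Ix n) (ι' := Ix n) (k := ℂ)
    ((fun (g : MT n) (i : Ix n) => g i.1 i.2.1 i.2.2) '' S) τ hS L hLX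
  obtain ⟨σ, hσ⟩ := htr
  refine ⟨σ, fun q hq => hσ q ?_⟩
  rintro _ ⟨g, hg, rfl⟩
  simp only [hLe]
  exact hq g hg

/-- **Functions from monodromy.** -/
theorem indep_of_mon {X κ : Type} [Fintype X] [Fintype κ] {n : κ → ℕ} {U : Set (X → ℂ)} {Y : (X → ℂ) → MT n}
    (hU : IsPreconnected U) (hUo : IsOpen U) (hne : U.Nonempty)
    (hY : ∀ j a b, AnalyticOnNhd ℂ (fun x => Y x j a b) U) (hdet : ∀ x ∈ U, ∀ j, (Y x j).det ≠ 0) {r : ℕ}
    (hr : DimGe {g | IsMon U Y g} r) :
    ∃ σ : Fin r → Ix n, IndepM U (fun i x => Y x (σ i).1 (σ i).2.1 (σ i).2.2) := by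
  classical
  by_contra hcon
  push Not at hcon
  have h0 : ∀ σ : Fin r → Ix n, ∃ p : MvPolynomial (Fin r) (MvPolynomial X ℂ),
      (∀ x ∈ U, evM (fun i x => Y x (σ i).1 (σ i).2.1 (σ i).2.2) x p = 0) ∧ p ≠ 0 := by
    intro σ
    have h1 := hcon σ
    unfold IndepM at h1
    push Not at h1
    exact h1
  choose p hp hp0 using h0
  have h1 : ∀ σ, ∃ m, (p σ).coeff m ≠ 0 := by
    intro σ
    by_contra h2
    push Not at h2
    exact hp0 σ (MvPolynomial.ext _ _ fun m => by rw [h2 m, MvPolynomial.coeff_zero])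
  choose m hm using h1
  have h2 : (∏ σ : Fin r → Ix n, (p σ).coeff (m σ)) ≠ 0 := Finset.prod_ne_zero_iff.2 fun σ _ => hm σ
  obtain ⟨x0, hx0, hx1⟩ : ∃ x0 ∈ U, MvPolynomial.eval x0 (∏ σ : Fin r → Ix n, (p σ).coeff (m σ)) ≠ 0 := by
    by_contra h3
    push Not at h3
    exact h2 (poly_zero hUo hne _ h3)
  rw [map_prod, Finset.prod_ne_zero_iff] at hx1
  obtain ⟨σ, hσ⟩ := exists_coord_mul hr (Y x0) (hdet x0 hx0)
  apply hx1 σ (Finset.mem_univ σ)
  have hrel : IsRelT U Y (MvPolynomial.rename σ (p σ)) := by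
    intro x hx
    unfold vt
    rw [MvPolynomial.eval₂_rename]
    exact hp σ x hx
  have h6 : MvPolynomial.map (MvPolynomial.eval x0) (p σ) = 0 := by
    refine hσ _ fun g hg => ?_
    have h7 := mon_mem hU hY hg _ hrel x0 hx0
    unfold vt at h7
    rw [MvPolynomial.eval₂_rename] at h7
    rw [MvPolynomial.eval_map]
    exact h7
  rw [← MvPolynomial.coeff_map, h6, MvPolynomial.coeff_zero]

end Pool.Agent.Q311.MV
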