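import Pool.Agent.Y985.OR.Stm3
import Pool.Agent.Q311.MV.Dim

/-!
# The dimension of products of special orthogonal and symplectic groups
-/

set_option autoImplicit false
set_option linter.unusedSectionVars false

open Matrix Filter Topology

namespace Pool.Agent.Q311.MV

open Pool.Agent.Y890.MV
open Pool.Agent.Y119.PLM (MT Ix IsMon)
open Pool.Agent.Y985.OR (IsoS SymSk DenseS)

section Lin

/-- coordinates on the image of an injective linear map -/
theorem exists_coord {I E : Type} [Fintype I] [DecidableEq I] (l : E → ((I → ℂ) →ₗ[ℂ] ℂ))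
    (hl : ∀ t : I → ℂ, (∀ e, l e t = 0) → t = 0) :
    ∃ σ : I → E, Function.Injective (LinearMap.pi (fun i => l (σ i)) : (I → ℂ) →ₗ[ℂ] (I → ℂ)) := by
  classical
  have hspan : Submodule.span ℂ (Set.range l) = ⊤ := by
    by_contra hne
    obtain ⟨f, hf0, hf⟩ := Submodule.exists_le_ker_of_lt_top _ (lt_top_iff_ne_top.2 hne)
    -- `f` is the evaluation at a vector
    obtain ⟨t, ht⟩ := (Module.evalEquiv ℂ (I → ℂ)).surjective f
    have h1 : ∀ e, l e t = 0 := by
      intro e
      have h2 : f (l e) = 0 := by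
        have h3 := hf (Submodule.subset_span ⟨e, rfl⟩)
        exact LinearMap.mem_ker.1 h3
      rw [← ht] at h2
      exact h2
    apply hf0
    rw [← ht, hl t h1, map_zero]
  obtain ⟨b, hb, hbs, hbi⟩ := exists_linearIndependent ℂ (Set.range l)
  rw [hspan] at hbs
  let B : Module.Basis b ℂ ((I → ℂ) →ₗ[ℂ] ℂ) := Module.Basis.mk hbi (by rw [Subtype.range_val, hbs])
  have hfin : Finite b := Module.Finite.finite_basis B
  have : Fintype b := Fintype.ofFinite b
  have hcard : Fintype.card b = Fintype.card I := by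
    have h1 := Module.finrank_eq_card_basis B
    have h2 : Module.finrank ℂ ((I → ℂ) →ₗ[ℂ] ℂ) = Fintype.card I := by
      have h3 : Module.finrank ℂ (Module.Dual ℂ (I → ℂ)) = Module.finrank ℂ (I → ℂ) := Subspace.dual_finrank_eq
      rw [Module.finrank_fintype_fun_eq_card] at h3
      exact h3
    rw [← h1, h2]
  let e : I ≃ b := (Fintype.equivOfCardEq hcard).symm
  have h4 : ∀ i : I, ∃ x : E, l x = (e i : (I → ℂ) →ₗ[ℂ] ℂ) := fun i => hb (e i).2
  choose σ hσ using h4
  refine ⟨σ, ?_⟩
  rw [injective_iff_map_eq_zero]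
  intro t ht
  apply hl t
  have h5 : ∀ x : b, (x : (I → ℂ) →ₗ[ℂ] ℂ) t = 0 := by
    intro x
    have h6 := congrFun ht (e.symm x)
    rw [LinearMap.pi_apply, hσ, Equiv.apply_symm_apply] at h6
    exact h6
  have h7 : ∀ f : (I → ℂ) →ₗ[ℂ] ℂ, f t = 0 := by
    intro f
    have h8 : f ∈ Submodule.span ℂ b := by rw [hbs]; exact Submodule.mem_top
    induction h8 using Submodule.span_induction with
    | mem x hx => exact h5 ⟨x, hx⟩
    | zero => rfl
    | add x y _ _ hx hy => rw [LinearMap.add_apply, hx, hy, add_zero]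
    | smul a x _ hx => rw [LinearMap.smul_apply, hx, smul_zero]
  exact fun x => h7 _

end Lin

open scoped Matrix.Norms.Operator in
/-- **The dimension of a set which contains the exponentials of a linear space.** -/
theorem dimGe_of_exp {κ : Type} {n : κ → ℕ} (I : Type) [Fintype I] [DecidableEq I]
    (A : (I → ℂ) →ₗ[ℂ] MT n) (hA : Function.Injective A) (S : Set (MT n))
    (hS : ∀ t, (fun j => NormedSpace.exp (A t j)) ∈ S) : DimGe S (Fintype.card I) := by
  classical
  let l : Ix n → ((I → ℂ) →ₗ[ℂ] ℂ) := fun e =>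
    { toFun := fun t => A t e.1 e.2.1 e.2.2
      map_add' := fun s t => by rw [map_add]; rfl
      map_smul' := fun c t => by rw [map_smul]; rfl }
  obtain ⟨σ, hσ⟩ := exists_coord l (fun t ht => hA (by
    rw [map_zero]
    funext j
    refine Matrix.ext fun a b => ?_
    exact ht ⟨j, a, b⟩))
  let L : (I → ℂ) →L[ℂ] (I → ℂ) := LinearMap.toContinuousLinearMap (LinearMap.pi (fun i => l (σ i)))
  have hL : L.range = ⊤ := by
    have h1 : Function.Surjective (LinearMap.pi (fun i => l (σ i)) : (I → ℂ) →ₗ[ℂ] (I → ℂ)) :=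
      LinearMap.surjective_of_injective hσ
    exact LinearMap.range_eq_top.2 h1
  let F : (I → ℂ) → (I → ℂ) := fun t i => NormedSpace.exp (A t (σ i).1) (σ i).2.1 (σ i).2.2
  have hF : HasStrictFDerivAt F L 0 := by
    rw [hasStrictFDerivAt_pi']
    intro i
    let Aj : (I → ℂ) →L[ℂ] Matrix (Fin (n (σ i).1)) (Fin (n (σ i).1)) ℂ :=
      LinearMap.toContinuousLinearMap ((LinearMap.proj (σ i).1 : MT n →ₗ[ℂ] _) ∘ₗ A)
    let En : Matrix (Fin (n (σ i).1)) (Fin (n (σ i).1)) ℂ →L[ℂ] ℂ :=
      LinearMap.toContinuousLinearMap (Matrix.entryLinearMap ℂ ℂ (σ i).2.1 (σ i).2.2)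
    have h1 : HasStrictFDerivAt (fun t => Aj t) Aj 0 := Aj.hasStrictFDerivAt
    have h2 : HasStrictFDerivAt (NormedSpace.exp : Matrix (Fin (n (σ i).1)) (Fin (n (σ i).1)) ℂ → _)
        (1 : Matrix (Fin (n (σ i).1)) (Fin (n (σ i).1)) ℂ →L[ℂ] Matrix (Fin (n (σ i).1)) (Fin (n (σ i).1)) ℂ)
        (Aj 0) := by
      rw [map_zero]
      exact hasStrictFDerivAt_exp_zero
    have h3 := (En.hasStrictFDerivAt (x := NormedSpace.exp (Aj 0))).comp 0 (h2.comp 0 h1)
    exact h3
  have hmap := hF.map_nhds_eq_of_surj hL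
  have hrange : Set.range F ∈ 𝓝 (F 0) := by
    rw [← hmap]
    exact Filter.mem_map.2 (Filter.univ_mem' fun t => ⟨t, rfl⟩)
  obtain ⟨W, hW1, hW2, hW3⟩ := mem_nhds_iff.1 hrange
  let e := Fintype.equivFin I
  refine ⟨fun i => σ (e.symm i), fun p hp => ?_⟩
  have h5 : MvPolynomial.rename e.symm p = 0 := by
    refine poly_zero hW2 ⟨_, hW3⟩ _ fun y hy => ?_
    obtain ⟨t, rfl⟩ := hW1 hy
    rw [MvPolynomial.eval_rename]
    have h6 := hp _ (hS t)
    exact h6
  exact (MvPolynomial.rename_injective _ e.symm.injective) (by rw [h5, map_zero])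

section Iso

variable {m : ℕ}

/-- the exponential of an element of the Lie algebra -/
theorem exp_iso {J M : Matrix (Fin m) (Fin m) ℂ} (hdet : J.det ≠ 0) (hM : Mᵀ * J = -(J * M)) :
    (NormedSpace.exp M)ᵀ * J * NormedSpace.exp M = J := by
  have hJ : IsUnit J := (Matrix.isUnit_iff_isUnit_det J).2 (Ne.isUnit hdet)
  have hJi : J * J⁻¹ = 1 := Matrix.mul_nonsing_inv _ (Ne.isUnit hdet)
  have hJi' : J⁻¹ * J = 1 := Matrix.nonsing_inv_mul _ (Ne.isUnit hdet)
  have h1 : Mᵀ = J * (-M) * J⁻¹ := by
    calc Mᵀ = Mᵀ * (J * J⁻¹) := by rw [hJi, mul_one]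
      _ = (Mᵀ * J) * J⁻¹ := by rw [mul_assoc]
      _ = J * (-M) * J⁻¹ := by rw [hM, mul_neg]
  have h2 : (NormedSpace.exp M)ᵀ = J * (NormedSpace.exp M)⁻¹ * J⁻¹ := by
    rw [← Matrix.exp_transpose, h1, Matrix.exp_conj _ _ hJ, Matrix.exp_neg]
  have h3 : IsUnit (NormedSpace.exp M) := Matrix.isUnit_exp M
  have h4 : (NormedSpace.exp M)⁻¹ * NormedSpace.exp M = 1 :=
    Matrix.nonsing_inv_mul _ ((Matrix.isUnit_iff_isUnit_det _).1 h3)
  calc (NormedSpace.exp M)ᵀ * J * NormedSpace.exp M =
        J * (NormedSpace.exp M)⁻¹ * (J⁻¹ * J) * NormedSpace.exp M := by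
        rw [h2]; simp only [mul_assoc]
    _ = J * ((NormedSpace.exp M)⁻¹ * NormedSpace.exp M) := by rw [hJi', mul_one, mul_assoc]
    _ = J := by rw [h4, mul_one]

theorem exp_isoS {J M : Matrix (Fin m) (Fin m) ℂ} (hdet : J.det ≠ 0) (hM : Mᵀ * J = -(J * M)) :
    (NormedSpace.exp M)ᵀ * J * NormedSpace.exp M = J ∧ (NormedSpace.exp M).det = 1 := by
  refine ⟨exp_iso hdet hM, ?_⟩
  set N : Matrix (Fin m) (Fin m) ℂ := (1 / 2 : ℂ) • M with hN
  have hNJ : Nᵀ * J = -(J * N) := by
    rw [hN, transpose_smul, smul_mul_assoc, hM, mul_smul_comm, smul_neg]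
  have h1 := congrArg Matrix.det (exp_iso hdet hNJ)
  rw [det_mul, det_mul, det_transpose] at h1
  have h2 : (NormedSpace.exp N).det * (NormedSpace.exp N).det = 1 := by
    have h3 : ((NormedSpace.exp N).det * (NormedSpace.exp N).det) * J.det = 1 * J.det := by
      rw [one_mul]
      linear_combination h1
    exact mul_right_cancel₀ hdet h3
  have h4 : M = N + N := by
    rw [hN, ← add_smul]
    norm_num
  rw [h4, Matrix.exp_add_of_commute _ _ (Commute.refl N), det_mul, h2]

/-- the pairs of indices above the diagonal, with the diagonal if `d` is true -/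
abbrev Pr (m : ℕ) (d : Prop) : Type := {p : Fin m × Fin m // p.1 < p.2 ∨ (d ∧ p.1 = p.2)}

open Classical in
/-- the matrix with given entries above the diagonal, symmetric (`d` true) or skew -/
noncomputable def SS (d : Prop) : (Pr m d → ℂ) →ₗ[ℂ] Matrix (Fin m) (Fin m) ℂ where
  toFun t := Matrix.of fun a b =>
    if h : a < b ∨ (d ∧ a = b) then t ⟨(a, b), h⟩ else
      if h' : b < a then (if d then 1 else -1) * t ⟨(b, a), Or.inl h'⟩ else 0
  map_add' s t := by
    ext a b
    simp only [Matrix.of_apply, Matrix.add_apply, Pi.add_apply]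
    split_ifs <;> ring
  map_smul' c t := by
    ext a b
    simp only [Matrix.of_apply, Matrix.smul_apply, Pi.smul_apply, smul_eq_mul, RingHom.id_apply]
    split_ifs <;> ring

theorem SS_inj (d : Prop) (t : Pr m d → ℂ) (h : SS d t = 0) : t = 0 := by
  classical
  funext p
  have h1 := congrFun (congrFun h p.1.1) p.1.2
  simp only [SS, LinearMap.coe_mk, AddHom.coe_mk, Matrix.of_apply, Matrix.zero_apply] at h1
  rw [dif_pos p.2] at h1
  exact h1

open Classical in
theorem SS_transpose (d : Prop) (t : Pr m d → ℂ) : (SS d t)ᵀ = (if d then (1 : ℂ) else -1) • SS d t := by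
  classical
  ext a b
  simp only [SS, LinearMap.coe_mk, AddHom.coe_mk, Matrix.of_apply, Matrix.transpose_apply, Matrix.smul_apply,
    smul_eq_mul]
  rcases lt_trichotomy a b with h | h | h
  · have h1 : ¬ (b < a ∨ (d ∧ b = a)) := by
      rintro (h1 | ⟨_, h1⟩)
      · exact absurd (h.trans h1) (lt_irrefl _)
      · exact h.ne' h1
    rw [dif_neg h1, dif_pos h, dif_pos (Or.inl h)]
  · subst h
    by_cases hd : d
    · rw [dif_pos (Or.inr ⟨hd, rfl⟩), if_pos hd, one_mul]
    · have h1 : ¬ (a < a ∨ (d ∧ a = a)) := by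
        rintro (h1 | ⟨h1, _⟩)
        · exact lt_irrefl _ h1
        · exact hd h1
      rw [dif_neg h1, dif_neg (lt_irrefl _), mul_zero]
  · have h1 : ¬ (a < b ∨ (d ∧ a = b)) := by
      rintro (h1 | ⟨_, h1⟩)
      · exact absurd (h.trans h1) (lt_irrefl _)
      · exact h.ne' h1
    rw [dif_pos (Or.inl h), dif_neg h1, dif_pos h]
    split_ifs
    · rw [one_mul, one_mul]
    · ring

/-- the number of pairs -/
theorem card_lt (m : ℕ) : 2 * Fintype.card {p : Fin m × Fin m // p.1 < p.2} = m * (m - 1) := by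
  classical
  rw [Fintype.card_subtype]
  have h1 : (Finset.univ.filter fun p : Fin m × Fin m => p.1 < p.2).card =
      (Finset.univ.filter fun p : Fin m × Fin m => p.2 < p.1).card := by
    refine Finset.card_bij (fun p _ => (p.2, p.1)) ?_ ?_ ?_
    · intro p hp
      simpa using hp
    · rintro ⟨a, b⟩ _ ⟨a', b'⟩ _ h
      simp only [Prod.mk.injEq] at h
      rw [h.1, h.2]
    · rintro ⟨a, b⟩ hp
      exact ⟨(b, a), by simpa using hp, rfl⟩
  have h2 : (Finset.univ.filter fun p : Fin m × Fin m => p.1 < p.2).card +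
      (Finset.univ.filter fun p : Fin m × Fin m => p.2 < p.1).card + m = m * m := by
    have h3 : (Finset.univ.filter fun p : Fin m × Fin m => p.1 = p.2).card = m := by
      have h4 : (Finset.univ.filter fun p : Fin m × Fin m => p.1 = p.2) =
          Finset.univ.image (fun a : Fin m => (a, a)) := by
        ext ⟨a, b⟩
        simp
      rw [h4, Finset.card_image_of_injective _ (fun a b h => (Prod.mk.inj h).1), Finset.card_univ, Fintype.card_fin]
    have h5 : (Finset.univ : Finset (Fin m × Fin m)) =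
        ((Finset.univ.filter fun p : Fin m × Fin m => p.1 < p.2) ∪
          (Finset.univ.filter fun p : Fin m × Fin m => p.2 < p.1)) ∪
          (Finset.univ.filter fun p : Fin m × Fin m => p.1 = p.2) := by
      ext ⟨a, b⟩
      simp only [Finset.mem_univ, Finset.mem_union, Finset.mem_filter, true_and, true_iff]
      rcases lt_trichotomy a b with h | h | h
      · exact Or.inl (Or.inl h)
      · exact Or.inr h
      · exact Or.inl (Or.inr h)
    have h6 := congrArg Finset.card h5
    rw [Finset.card_union_of_disjoint, Finset.card_union_of_disjoint, h3, Finset.card_univ, Fintype.card_prod,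
      Fintype.card_fin] at h6
    · exact h6.symm
    · rw [Finset.disjoint_left]
      rintro ⟨a, b⟩ h7 h8
      simp only [Finset.mem_filter, Finset.mem_univ, true_and] at h7 h8
      exact absurd (h7.trans h8) (lt_irrefl _)
    · rw [Finset.disjoint_left]
      rintro ⟨a, b⟩ h7 h8
      simp only [Finset.mem_union, Finset.mem_filter, Finset.mem_univ, true_and] at h7 h8
      subst h8
      rcases h7 with h7 | h7 <;> exact lt_irrefl _ h7
  rcases m with _ | m
  · simp
  · rw [Nat.succ_sub_one]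
    nlinarith

open Classical in
theorem card_pr (m : ℕ) (d : Prop) [Fintype (Pr m d)] : Fintype.card (Pr m d) = if d then m * (m + 1) / 2 else m * (m - 1) / 2 := by
  have h0 := card_lt m
  by_cases hd : d
  · rw [if_pos hd]
    have h1 : Fintype.card (Pr m d) = Fintype.card {p : Fin m × Fin m // p.1 < p.2} + m := by
      have e : Pr m d ≃ {p : Fin m × Fin m // p.1 < p.2} ⊕ Fin m :=
        { toFun := fun p => if h : p.1.1 < p.1.2 then Sum.inl ⟨p.1, h⟩ else Sum.inr p.1.1
          invFun := fun x => Sum.elim (fun p => ⟨p.1, Or.inl p.2⟩) (fun a => ⟨(a, a), Or.inr ⟨hd, rfl⟩⟩) x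
          left_inv := by
            rintro ⟨⟨a, b⟩, h⟩
            by_cases h2 : a < b
            · simp [h2]
            · have h3 : a = b := by
                rcases h with h | h
                · exact absurd h h2
                · exact h.2
              subst h3
              simp
          right_inv := by
            rintro (⟨⟨a, b⟩, h⟩ | a)
            · have h' : a < b := h
              simp [h']
            · simp }
      rw [Fintype.card_congr e, Fintype.card_sum, Fintype.card_fin]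
    have h2 : m * (m + 1) = m * (m - 1) + 2 * m := by
      rcases m with _ | m
      · simp
      · rw [Nat.succ_sub_one]
        ring
    omega
  · rw [if_neg hd]
    have h1 : Fintype.card (Pr m d) = Fintype.card {p : Fin m × Fin m // p.1 < p.2} := by
      refine Fintype.card_congr (Equiv.subtypeEquivRight fun p => ?_)
      simp [hd]
    omega

end Iso

/-- the dimension of the product of the special orthogonal and symplectic groups of the forms `J j` -/
def dimIso {κ : Type} [Fintype κ] (n : κ → ℕ) (sym : κ → Prop) [DecidablePred sym] : ℕ :=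
  ∑ j, if sym j then n j * (n j - 1) / 2 else n j * (n j + 1) / 2

open Classical in
/-- **The dimension of the product of the special orthogonal and symplectic groups.** -/
theorem dimGe_isoS {κ : Type} [Fintype κ] {n : κ → ℕ} {J : MT n} (hJ : SymSk J) :
    DimGe {g | IsoS J g} (dimIso n fun j => (J j)ᵀ = J j) := by
  let d : κ → Prop := fun j => ¬ (J j)ᵀ = J j
  let A : ((Σ j, Pr (n j) (d j)) → ℂ) →ₗ[ℂ] MT n :=
    { toFun := fun t j => (J j)⁻¹ * SS (d j) (fun p => t ⟨j, p⟩)
      map_add' := fun s t => by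
        funext j
        have h1 : (fun p => (s + t) (⟨j, p⟩ : Σ j, Pr (n j) (d j))) =
            (fun p => s ⟨j, p⟩) + fun p => t ⟨j, p⟩ := rfl
        show (J j)⁻¹ * SS (d j) _ = (J j)⁻¹ * SS (d j) _ + (J j)⁻¹ * SS (d j) _
        rw [h1, map_add, mul_add]
      map_smul' := fun c t => by
        funext j
        have h1 : (fun p => (c • t) (⟨j, p⟩ : Σ j, Pr (n j) (d j))) = c • fun p => t ⟨j, p⟩ := rfl
        show (J j)⁻¹ * SS (d j) _ = c • ((J j)⁻¹ * SS (d j) _)
        rw [h1, map_smul, mul_smul_comm] }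
  have hJi : ∀ j, J j * (J j)⁻¹ = 1 := fun j => Matrix.mul_nonsing_inv _ (Ne.isUnit (hJ j).2)
  have hJi' : ∀ j, (J j)⁻¹ * J j = 1 := fun j => Matrix.nonsing_inv_mul _ (Ne.isUnit (hJ j).2)
  have hAJ : ∀ t j, J j * A t j = SS (d j) (fun p => t ⟨j, p⟩) := by
    intro t j
    show J j * ((J j)⁻¹ * SS (d j) _) = _
    rw [← mul_assoc, hJi, one_mul]
  have hinj : Function.Injective A := by
    rw [injective_iff_map_eq_zero]
    intro t ht
    funext x
    obtain ⟨j, p⟩ := x
    have h1 := hAJ t j
    rw [ht] at h1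
    have h2 : SS (d j) (fun p => t ⟨j, p⟩) = 0 := by
      rw [← h1]
      exact mul_zero _
    exact congrFun (SS_inj (d j) _ h2) p
  have hlie : ∀ t j, (A t j)ᵀ * J j = -(J j * A t j) := by
    intro t j
    have h1 : (A t j)ᵀ * J j = (SS (d j) (fun p => t ⟨j, p⟩))ᵀ * (((J j)⁻¹)ᵀ * J j) := by
      show ((J j)⁻¹ * SS (d j) _)ᵀ * J j = _
      rw [transpose_mul, mul_assoc]
    rw [h1, hAJ, SS_transpose, Matrix.transpose_nonsing_inv]
    by_cases hs : (J j)ᵀ = J j
    · have hd : ¬ d j := fun h => h hs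
      rw [if_neg hd, hs, hJi', mul_one, neg_one_smul]
    · have hd : d j := hs
      have hs' : (J j)ᵀ = -J j := (hJ j).1.resolve_left hs
      have h2 : (-J j)⁻¹ * J j = -1 := by
        have h3 : (-J j)⁻¹ = -(J j)⁻¹ := by
          apply Matrix.inv_eq_right_inv
          rw [neg_mul_neg, hJi]
        rw [h3, neg_mul, hJi']
      rw [if_pos hd, hs', h2, one_smul, mul_neg, mul_one]
  have hcard : Fintype.card (Σ j, Pr (n j) (d j)) = dimIso n fun j => (J j)ᵀ = J j := by
    rw [Fintype.card_sigma, dimIso]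
    refine Finset.sum_congr rfl fun j _ => ?_
    rw [card_pr (n j) (d j)]
    by_cases hs : (J j)ᵀ = J j
    · have hd : ¬ d j := fun h => h hs
      rw [if_neg hd, if_pos hs]
    · have hd : d j := hs
      rw [if_pos hd, if_neg hs]
  rw [← hcard]
  refine dimGe_of_exp _ A hinj _ fun t j => ?_
  exact exp_isoS (hJ j).2 (hlie t j)

/-- dense monodromy has the dimension of the group -/
theorem dimGe_mon {X κ : Type} [Fintype X] {n : κ → ℕ} {U : Set (X → ℂ)} {Y : (X → ℂ) → MT n} {J : MT n}
    (hD : DenseS U Y J) {r : ℕ} (hr : DimGe {g | IsoS J g} r) : DimGe {g | IsMon U Y g} r := by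
  obtain ⟨τ, hτ⟩ := hr
  refine ⟨τ, fun p hp => hτ p fun g hg => ?_⟩
  have h1 := hD (MvPolynomial.rename τ p) (fun h hh => by
    unfold Pool.Agent.Y119.PLM.pe
    rw [MvPolynomial.eval_rename]
    exact hp h hh) g hg
  unfold Pool.Agent.Y119.PLM.pe at h1
  rw [MvPolynomial.eval_rename] at h1
  exact h1

end Pool.Agent.Q311.MV
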